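import Pool.Agent.Q251.SL.K6B3

/-! Project SL2 (helper167), job SL-K6B: near the dual line the exponent is almost constant. -/

set_option autoImplicit false

open MeasureTheory Filter Topology

namespace Pool.Agent.Q251.SL

open Pool.Agent.Q167.SL

/-- the logarithmic derivative of the exponent -/
noncomputable def Bh (η : ℝ) (r : ℂ) : ℂ :=
  -(1 / 2) * Yf η r * (Complex.cosh r - Complex.sinh r * deriv (Nf η) r / Nf η r)

theorem im_mem {η : ℝ} (hη : 0 < η) (φ : ℝ) : (φ * Complex.I : ℂ) ∈ Vs η := by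
  show |(φ * Complex.I : ℂ).re| < η
  simpa using hη

theorem conj_im (φ : ℝ) : (starRingEnd ℂ) (φ * Complex.I : ℂ) = -(φ * Complex.I) := by
  simp

theorem sinh_im (φ : ℝ) : Complex.sinh (φ * Complex.I) = (Real.sin φ : ℝ) * Complex.I := by
  rw [Complex.sinh_mul_I, Complex.ofReal_sin]

theorem nf_im_ne {η : ℝ} (hη : 0 < η) (φ : ℝ) : Nf η (φ * Complex.I) ≠ 0 := by
  have hterm : ∀ l : ℕ, 2 * Complex.cosh (2 * (l + 1) * η) /
      (Complex.sinh (2 * (l + 1) * η - φ * Complex.I) *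
        Complex.sinh (2 * (l + 1) * η + φ * Complex.I)) =
      ((2 * Real.cosh (2 * (l + 1) * η) / (Real.sinh (2 * (l + 1) * η) ^ 2 + Real.sin φ ^ 2) : ℝ)
        : ℂ) := by
    intro l
    rw [← sinh_mul_id, sinh_im, mul_pow, Complex.I_sq]
    push_cast
    congr 1
    ring
  have h1 : (Nf η (φ * Complex.I)) = ((1 + Real.sin φ ^ 2 * ∑' l : ℕ,
      (2 * Real.cosh (2 * (l + 1) * η) / (Real.sinh (2 * (l + 1) * η) ^ 2 + Real.sin φ ^ 2)) : ℝ)
        : ℂ) := by
    unfold Nf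
    rw [tsum_congr hterm, ← Complex.ofReal_tsum, sinh_im, mul_pow, Complex.I_sq]
    push_cast
    ring
  rw [h1]
  have h2 : 0 ≤ ∑' l : ℕ, (2 * Real.cosh (2 * (l + 1) * η) /
      (Real.sinh (2 * (l + 1) * η) ^ 2 + Real.sin φ ^ 2)) := by
    refine tsum_nonneg fun l => ?_
    have := Real.cosh_pos (2 * (l + 1) * η)
    positivity
  have h3 : (1 + Real.sin φ ^ 2 * ∑' l : ℕ, (2 * Real.cosh (2 * (l + 1) * η) /
      (Real.sinh (2 * (l + 1) * η) ^ 2 + Real.sin φ ^ 2)) : ℝ) ≠ 0 := by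
    have := mul_nonneg (sq_nonneg (Real.sin φ)) h2
    linarith
  exact_mod_cast h3

/-- the strip of interest -/
theorem nf_ne {η : ℝ} (hη : 0 < η) (hsg : ∀ s : ℂ, 0 < s.re → s.re < η → sg η s ≠ 0) {r : ℂ}
    (hr : r ∈ Kr η) : Nf η r ≠ 0 := by
  obtain ⟨⟨h1, h2⟩, -⟩ := kr_mem.1 hr
  rcases h1.eq_or_lt with h3 | h3
  · have e1 : r = (r.im : ℂ) * Complex.I := by
      conv_lhs => rw [← Complex.re_add_im r, ← h3]
      simp
    rw [e1]
    exact nf_im_ne hη _
  · have h4 : r.re < η := by linarith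
    have h5 := sg_eq hη h3 h4
    have h6 : (η - r : ℂ).re = η - r.re := by simp
    have h7 := hsg (η - r) (by rw [h6]; linarith) (by rw [h6]; linarith)
    intro h8
    apply h7
    rw [h5, h8, zero_div]

theorem deriv_nf_even {η : ℝ} (hη : 0 < η) {r : ℂ} (hr : r ∈ Vs η) :
    deriv (Nf η) (-r) = -deriv (Nf η) r := by
  have h1 : HasDerivAt (Nf η) (deriv (Nf η) (-r)) (-r) := by
    refine ((nf_diff hη).differentiableAt ((vs_open η).mem_nhds ?_)).hasDerivAt
    show |(-r).re| < η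
    rw [Complex.neg_re, abs_neg]
    exact hr
  have h2 := HasDerivAt.comp r h1 (hasDerivAt_neg r)
  have h3 : (Nf η ∘ Neg.neg) = Nf η := by
    funext x
    exact nf_even η x
  rw [h3] at h2
  have h5 := h2.deriv
  rw [h5]
  ring

theorem deriv_nf_conj (η : ℝ) (r : ℂ) :
    deriv (Nf η) ((starRingEnd ℂ) r) = (starRingEnd ℂ) (deriv (Nf η) r) := by
  have h1 : (starRingEnd ℂ) ∘ (Nf η) ∘ (starRingEnd ℂ) = Nf η := by
    funext x
    simp only [Function.comp]
    rw [nf_conj, Complex.conj_conj]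
  have h2 := congrFun (deriv_conj_conj (f := Nf η)) ((starRingEnd ℂ) r)
  rw [h1] at h2
  simp only [Function.comp, Complex.conj_conj] at h2
  exact h2

theorem bh_real {η : ℝ} (hη : 0 < η) (φ : ℝ) : (Bh η (φ * Complex.I)).im = 0 := by
  rw [← Complex.conj_eq_iff_im]
  unfold Bh
  rw [map_mul, map_mul, map_neg, map_div₀, map_one, conj2, map_sub, map_div₀, map_mul,
    ← Complex.cosh_conj, ← Complex.sinh_conj, ← yf_conj, ← nf_conj, ← deriv_nf_conj, conj_im,
    Complex.cosh_neg, Complex.sinh_neg, yf_even, nf_even, deriv_nf_even hη (im_mem hη φ)]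
  ring

theorem bh_cont {η : ℝ} (hη : 0 < η) (hsg : ∀ s : ℂ, 0 < s.re → s.re < η → sg η s ≠ 0) :
    ContinuousOn (Bh η) (Kr η) := by
  have h1 : ContinuousOn (Nf η) (Kr η) := (nf_diff hη).continuousOn.mono (kr_sub hη)
  have h2 : ContinuousOn (deriv (Nf η)) (Kr η) :=
    ((nf_diff hη).deriv (vs_open η)).continuousOn.mono (kr_sub hη)
  have h3 := yf_cont hη
  unfold Bh
  refine ContinuousOn.mul (ContinuousOn.mul continuousOn_const h3) (ContinuousOn.sub (by fun_prop)
    (ContinuousOn.div (ContinuousOn.mul (by fun_prop) h2) h1 fun r hr => nf_ne hη hsg hr))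

theorem bh_small {η : ℝ} (hη : 0 < η) (hsg : ∀ s : ℂ, 0 < s.re → s.re < η → sg η s ≠ 0)
    {ε : ℝ} (hε : 0 < ε) : ∃ δ₀ : ℝ, 0 < δ₀ ∧ δ₀ ≤ η / 2 ∧ ∀ δ φ : ℝ, 0 < δ → δ ≤ δ₀ →
      |φ| ≤ Real.pi / 2 → |(Bh η (δ + φ * Complex.I)).im| ≤ ε := by
  have h1 := (kr_compact η).uniformContinuousOn_of_continuous (bh_cont hη hsg)
  rw [Metric.uniformContinuousOn_iff] at h1
  obtain ⟨δ₁, hδ₁, h2⟩ := h1 ε hε
  refine ⟨min (δ₁ / 2) (η / 2), by positivity, min_le_right _ _, fun δ φ h3 h4 h5 => ?_⟩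
  have h6 : δ ≤ δ₁ / 2 := h4.trans (min_le_left _ _)
  have h7 : δ ≤ η / 2 := h4.trans (min_le_right _ _)
  obtain ⟨h8, h9⟩ := abs_le.1 h5
  have m1 : (δ + φ * Complex.I : ℂ) ∈ Kr η := by
    rw [kr_mem]
    simp only [Complex.add_re, Complex.ofReal_re, Complex.mul_re, Complex.I_re, mul_zero,
      Complex.ofReal_im, Complex.I_im, mul_one, sub_self, add_zero, Complex.add_im, Complex.mul_im,
      zero_add]
    exact ⟨⟨h3.le, h7⟩, h8, h9⟩
  have m2 : (φ * Complex.I : ℂ) ∈ Kr η := by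
    rw [kr_mem]
    simp only [Complex.ofReal_re, Complex.mul_re, Complex.I_re, mul_zero,
      Complex.ofReal_im, Complex.I_im, mul_one, sub_self, add_zero, Complex.mul_im]
    exact ⟨⟨le_refl _, by positivity⟩, h8, h9⟩
  have h10 := h2 _ m1 _ m2 (by
    rw [dist_eq_norm]
    have : (δ + φ * Complex.I : ℂ) - φ * Complex.I = δ := by ring
    rw [this, Complex.norm_real, Real.norm_eq_abs, abs_of_pos h3]
    linarith)
  rw [dist_eq_norm] at h10
  have h11 := Complex.abs_im_le_norm (Bh η (δ + φ * Complex.I) - Bh η (φ * Complex.I))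
  rw [Complex.sub_im, bh_real hη, sub_zero] at h11
  linarith

/-- the derivative of `sg` -/
theorem dsg_eq {η : ℝ} (hη : 0 < η) {r : ℂ} (h0 : 0 < r.re) (h1 : r.re < η) :
    HasDerivAt (sg η) ((Nf η r * Complex.cosh r - deriv (Nf η) r * Complex.sinh r) /
      (2 * Complex.sinh r ^ 2)) (η - r) := by
  have hr : Complex.sinh r ≠ 0 := sinh_ne h0
  have hrV : r ∈ Vs η := by
    show |r.re| < η
    rw [abs_of_pos h0]
    exact h1
  have h2 : HasDerivAt (Nf η) (deriv (Nf η) r) r :=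
    ((nf_diff hη).differentiableAt ((vs_open η).mem_nhds hrV)).hasDerivAt
  have h3 : HasDerivAt (fun z : ℂ => Nf η z / (2 * Complex.sinh z))
      ((deriv (Nf η) r * (2 * Complex.sinh r) - Nf η r * (2 * Complex.cosh r)) /
        (2 * Complex.sinh r) ^ 2) r :=
    h2.div ((Complex.hasDerivAt_sinh r).const_mul 2) (mul_ne_zero two_ne_zero hr)
  have h4 : HasDerivAt (fun s : ℂ => (η : ℂ) - s) (-1) (η - r) := by
    simpa using (hasDerivAt_id (η - r : ℂ)).const_sub (η : ℂ)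
  have h3' : HasDerivAt (fun z : ℂ => Nf η z / (2 * Complex.sinh z))
      ((deriv (Nf η) r * (2 * Complex.sinh r) - Nf η r * (2 * Complex.cosh r)) /
        (2 * Complex.sinh r) ^ 2) ((η : ℂ) - (η - r)) := by
    rw [sub_sub_cancel]
    exact h3
  have h5 := HasDerivAt.comp (η - r : ℂ) h3' h4
  have h6 : (fun z : ℂ => Nf η z / (2 * Complex.sinh z)) ∘ (fun s : ℂ => (η : ℂ) - s)
      =ᶠ[𝓝 (η - r : ℂ)] sg η := by
    have hre : (η - r : ℂ).re = η - r.re := by simp
    have e1 : ∀ᶠ s : ℂ in 𝓝 (η - r : ℂ), 0 < s.re :=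
      (isOpen_lt continuous_const Complex.continuous_re).mem_nhds
        (show 0 < (η - r : ℂ).re by rw [hre]; linarith)
    have e2 : ∀ᶠ s : ℂ in 𝓝 (η - r : ℂ), s.re < η :=
      (isOpen_lt Complex.continuous_re continuous_const).mem_nhds
        (show (η - r : ℂ).re < η by rw [hre]; linarith)
    filter_upwards [e1, e2] with s hs1 hs2
    have e3 : (η - s : ℂ).re = η - s.re := by simp
    have e4 := sg_eq hη (r := η - s) (by rw [e3]; linarith) (by rw [e3]; linarith)
    rw [sub_sub_cancel] at e4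
    simp only [Function.comp]
    rw [e4]
  have h7 := h5.congr_of_eventuallyEq h6.symm
  refine h7.congr_deriv ?_
  field_simp
  ring

theorem bh_eq {η : ℝ} (hη : 0 < η) (hsg : ∀ s : ℂ, 0 < s.re → s.re < η → sg η s ≠ 0) {r : ℂ}
    (h0 : 0 < r.re) (h1 : r.re < η) :
    deriv (sg η) (η - r) - deriv (sg η) (η - r) * tt η (η - r) -
      1 / 2 * (deriv (sg η) (η - r) / sg η (η - r)) = Bh η r := by
  have hre : (η - r : ℂ).re = η - r.re := by simp
  have hne := hsg (η - r) (by rw [hre]; linarith) (by rw [hre]; linarith)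
  have hr : Complex.sinh r ≠ 0 := sinh_ne h0
  have h2 := sgtt_eq hη h0 h1 hne
  have h3 := (dsg_eq hη h0 h1).deriv
  have h4 := sg_eq hη h0 h1
  have hN : Nf η r ≠ 0 := by
    intro h
    apply hne
    rw [h4, h, zero_div]
  have e1 : deriv (sg η) (η - r) - deriv (sg η) (η - r) * tt η (η - r) -
      1 / 2 * (deriv (sg η) (η - r) / sg η (η - r)) = deriv (sg η) (η - r) / sg η (η - r) *
        (sg η (η - r) - sg η (η - r) * tt η (η - r) - 1 / 2) := by
    field_simp
  rw [e1, h2, h3, h4]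
  unfold Bh
  field_simp

theorem log_norm_deriv {g : ℝ → ℂ} {g' : ℂ} {t : ℝ} (hg : HasDerivAt g g' t) (h0 : g t ≠ 0) :
    HasDerivAt (fun t => Real.log ‖g t‖) (g' / g t).re t := by
  have h1 : HasDerivAt (fun t => (g t).re) g'.re t := by
    have := (Complex.reCLM.hasFDerivAt.comp_hasDerivAt t hg)
    simpa [Function.comp_def] using this
  have h2 : HasDerivAt (fun t => (g t).im) g'.im t := by
    have := (Complex.imCLM.hasFDerivAt.comp_hasDerivAt t hg)
    simpa [Function.comp_def] using this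
  have hn : Complex.normSq (g t) ≠ 0 := by
    rw [Ne, Complex.normSq_eq_zero]
    exact h0
  have h3 : HasDerivAt (fun t => (g t).re * (g t).re + (g t).im * (g t).im)
      (g'.re * (g t).re + (g t).re * g'.re + (g'.im * (g t).im + (g t).im * g'.im)) t :=
    (h1.mul h1).add (h2.mul h2)
  have h4 := (h3.log (by rw [← Complex.normSq_apply]; exact hn)).const_mul (1 / 2)
  have e1 : (fun t => Real.log ‖g t‖) = fun t => 1 / 2 *
      Real.log ((g t).re * (g t).re + (g t).im * (g t).im) := by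
    funext t
    rw [← Complex.normSq_apply, Complex.normSq_eq_norm_sq, Real.log_pow]
    push_cast
    ring
  rw [e1]
  refine h4.congr_deriv ?_
  rw [Complex.div_re, ← Complex.normSq_apply]
  field_simp
  ring

theorem k6b : S_k6b := by
  intro hk1 hk2 η ε hη hε
  obtain ⟨d1, -, c1, p1, -, hsg, -⟩ := hk1 η hη
  obtain ⟨dP, -⟩ := hk2 hk1 η hη
  obtain ⟨δ₀, hδ₀, hδ₁, hB⟩ := bh_small hη hsg (ε := ε / Real.pi) (by positivity)
  refine ⟨δ₀, hδ₀, by linarith, fun δ φ h1 h2 h3 => ?_⟩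
  have hπ := Real.pi_pos
  -- the function
  set f : ℝ → ℝ := fun ψ => (sg η ((η - δ : ℝ) + ψ * Complex.I)).re +
    (Ps η ((η - δ : ℝ) + ψ * Complex.I)).re -
      1 / 2 * Real.log ‖sg η ((η - δ : ℝ) + ψ * Complex.I)‖ with hf
  have hδη : δ < η := by linarith
  have hder : ∀ ψ : ℝ, HasDerivAt f (-(Bh η (δ + (-ψ : ℝ) * Complex.I)).im) ψ := by
    intro ψ
    have e0 : ((η - δ : ℝ) + ψ * Complex.I : ℂ) = η - (δ + (-ψ : ℝ) * Complex.I) := by
      push_cast
      ring
    have hre : ((η - δ : ℝ) + ψ * Complex.I : ℂ).re = η - δ := by simp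
    have hre2 : (δ + (-ψ : ℝ) * Complex.I : ℂ).re = δ := by simp
    have hline : HasDerivAt (fun ψ : ℝ => ((η - δ : ℝ) + ψ * Complex.I : ℂ)) Complex.I ψ := by
      have e4 : HasDerivAt (fun s : ℝ => (s : ℂ)) 1 ψ := Complex.ofRealCLM.hasDerivAt
      have := (e4.mul_const Complex.I).const_add ((η - δ : ℝ) : ℂ)
      simpa using this
    have habs : |((η - δ : ℝ) + ψ * Complex.I : ℂ).re| < η := by
      rw [hre, abs_of_pos (by linarith)]
      linarith
    have g1 := (d1 _ habs).1.hasDerivAt.comp ψ hline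
    have g2 := (dP _ habs).comp ψ hline
    have hne : sg η ((η - δ : ℝ) + ψ * Complex.I) ≠ 0 :=
      hsg _ (by rw [hre]; linarith) (by rw [hre]; linarith)
    have g3 := log_norm_deriv g1 hne
    have g4 : HasDerivAt (fun ψ : ℝ => (sg η ((η - δ : ℝ) + ψ * Complex.I)).re)
        (deriv (sg η) ((η - δ : ℝ) + ψ * Complex.I) * Complex.I).re ψ := by
      have := (Complex.reCLM.hasFDerivAt.comp_hasDerivAt ψ g1)
      simpa [Function.comp_def] using this
    have g5 : HasDerivAt (fun ψ : ℝ => (Ps η ((η - δ : ℝ) + ψ * Complex.I)).re)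
        (-(deriv (sg η) ((η - δ : ℝ) + ψ * Complex.I) * tt η ((η - δ : ℝ) + ψ * Complex.I)) *
          Complex.I).re ψ := by
      have := (Complex.reCLM.hasFDerivAt.comp_hasDerivAt ψ g2)
      simpa [Function.comp_def] using this
    have g6 := (g4.add g5).sub (g3.const_mul (1 / 2))
    have key := bh_eq hη hsg (r := δ + (-ψ : ℝ) * Complex.I) (by rw [hre2]; exact h1)
      (by rw [hre2]; exact hδη)
    rw [← e0] at key
    refine g6.congr_deriv ?_
    rw [← key]
    set a := deriv (sg η) ((η - δ : ℝ) + ψ * Complex.I)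
    set b := tt η ((η - δ : ℝ) + ψ * Complex.I)
    simp only [Function.comp]
    set c := sg η ((η - δ : ℝ) + ψ * Complex.I)
    have e1 : a * Complex.I / c = (a / c) * Complex.I := by ring
    rw [e1]
    have e2 : (1 / 2 * (a / c) : ℂ).im = 1 / 2 * (a / c).im := by
      have : (1 / 2 : ℂ) = ((1 / 2 : ℝ) : ℂ) := by push_cast; ring
      rw [this, Complex.im_ofReal_mul]
    rw [Complex.sub_im, Complex.sub_im, e2, Complex.mul_I_re, Complex.mul_I_re, Complex.mul_I_re,
      Complex.neg_im]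
    ring
  have hbd : ∀ ψ ∈ Set.Icc (-(Real.pi / 2)) (Real.pi / 2),
      ‖-(Bh η (δ + (-ψ : ℝ) * Complex.I)).im‖ ≤ ε / Real.pi := by
    intro ψ hψ
    rw [norm_neg, Real.norm_eq_abs]
    exact hB δ (-ψ) h1 h2 (by rw [abs_neg]; exact abs_le.2 ⟨hψ.1, hψ.2⟩)
  obtain ⟨h8, h9⟩ := abs_le.1 h3
  have hmv := Convex.norm_image_sub_le_of_norm_hasDerivWithin_le (x := Real.pi / 2) (y := φ)
    (fun ψ _ => (hder ψ).hasDerivWithinAt) hbd (convex_Icc _ _)
    (Set.mem_Icc.2 ⟨by linarith, le_refl _⟩) (Set.mem_Icc.2 ⟨h8, h9⟩)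
  have h10 : ε / Real.pi * ‖φ - Real.pi / 2‖ ≤ ε := by
    have : ‖φ - Real.pi / 2‖ ≤ Real.pi := by
      rw [Real.norm_eq_abs, abs_le]
      constructor <;> linarith
    calc ε / Real.pi * ‖φ - Real.pi / 2‖ ≤ ε / Real.pi * Real.pi := by gcongr
      _ = ε := by field_simp
  have h11 := (le_abs_self _).trans (hmv.trans h10)
  have h12 : f φ ≤ f (Real.pi / 2) + ε := by linarith
  have h13 : (sg η ((η - δ : ℝ) + (Real.pi / 2 : ℝ) * Complex.I)).re = 0 := by
    set s : ℂ := (η - δ : ℝ) + (Real.pi / 2 : ℝ) * Complex.I with hs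
    have e1 : (starRingEnd ℂ) s + Real.pi * Complex.I = s := by
      rw [hs, map_add, map_mul, Complex.conj_ofReal, Complex.conj_ofReal, Complex.conj_I]
      push_cast
      ring
    have e2 := (p1 ((starRingEnd ℂ) s)).1
    rw [e1, (c1 s).1] at e2
    have e3 := congrArg Complex.re e2
    rw [Complex.neg_re, Complex.conj_re] at e3
    linarith
  have h14 : f (Real.pi / 2) = (Ps η ((η - δ : ℝ) + (Real.pi / 2 : ℝ) * Complex.I)).re -
      1 / 2 * Real.log ‖sg η ((η - δ : ℝ) + (Real.pi / 2 : ℝ) * Complex.I)‖ := by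
    simp only [hf]
    rw [h13, zero_add]
  rw [h14] at h12
  exact h12

end Pool.Agent.Q251.SL
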