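import Pool.Agent.Q167.SL.StmC

/-! Project SL2 (helper167), job SL-K6B, part 1: lattice sums. -/

set_option autoImplicit false

open MeasureTheory Filter Topology

namespace Pool.Agent.Q251.SL

open Pool.Agent.Q167.SL

theorem sinh_lower (z : ℂ) : Real.sinh z.re ≤ ‖Complex.sinh z‖ := by
  have h1 : Complex.sinh z = (Complex.exp z - Complex.exp (-z)) / 2 := rfl
  rw [h1, norm_div]
  have h2 := norm_sub_norm_le (Complex.exp z) (Complex.exp (-z))
  rw [Complex.norm_exp, Complex.norm_exp, Complex.neg_re] at h2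
  rw [Real.sinh_eq]
  have h3 : ‖(2:ℂ)‖ = 2 := by simp
  rw [h3]
  linarith

theorem sinh_ne {z : ℂ} (hz : 0 < z.re) : Complex.sinh z ≠ 0 := by
  intro h
  have h1 := sinh_lower z
  rw [h, norm_zero] at h1
  have h2 := Real.sinh_pos_iff.2 hz
  linarith

theorem exp_one_lower (z : ℂ) : Real.exp z.re - 1 ≤ ‖Complex.exp z + 1‖ := by
  have h2 := norm_sub_norm_le (Complex.exp z) (-1)
  rw [Complex.norm_exp, norm_neg, norm_one, sub_neg_eq_add] at h2
  exact h2

theorem exp_one_ne {z : ℂ} (hz : 0 < z.re) : Complex.exp z + 1 ≠ 0 := by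
  intro h
  have h1 := exp_one_lower z
  rw [h, norm_zero] at h1
  have h2 := Real.add_one_lt_exp hz.ne'
  linarith

theorem real_sinh_add {a t : ℝ} (ht : 0 ≤ t) :
    Real.sinh a * Real.exp t ≤ Real.sinh (t + a) := by
  rw [Real.sinh_add, ← Real.cosh_add_sinh t]
  have h1 := Real.sinh_lt_cosh a
  have h2 := Real.sinh_nonneg_iff.2 ht
  nlinarith

theorem geo_summable {η : ℝ} (hη : 0 < η) (C : ℝ) :
    Summable fun l : ℕ => C * Real.exp (-(2 * l * η)) := by
  refine Summable.mul_left C ?_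
  have h1 : Summable fun l : ℕ => (Real.exp (-(2 * η))) ^ l := by
    refine summable_geometric_of_lt_one (Real.exp_pos _).le ?_
    rw [Real.exp_lt_one_iff]
    linarith
  refine h1.congr fun l => ?_
  rw [← Real.exp_nat_mul]
  congr 1
  ring

theorem summable_sinh {η : ℝ} (hη : 0 < η) {c : ℂ} (hc : 0 < c.re) :
    Summable fun l : ℕ => 1 / Complex.sinh (2 * l * η + c) := by
  refine Summable.of_norm_bounded (geo_summable hη (1 / Real.sinh c.re)) fun l => ?_
  have h1 := sinh_lower (2 * l * η + c)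
  have h2 : (2 * l * η + c : ℂ).re = 2 * l * η + c.re := by simp
  rw [h2] at h1
  have h3 := real_sinh_add (a := c.re) (t := 2 * l * η) (by positivity)
  have h4 := Real.sinh_pos_iff.2 hc
  rw [norm_div, norm_one, Real.exp_neg, one_div, one_div, ← mul_inv]
  apply inv_anti₀
  · positivity
  · linarith

theorem summable_exp {η : ℝ} (hη : 0 < η) {c : ℂ} (hc : 0 < c.re) :
    Summable fun l : ℕ => 1 / (Complex.exp (2 * l * η + c) + 1) := by
  refine Summable.of_norm_bounded (geo_summable hη (1 / (Real.exp c.re - 1))) fun l => ?_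
  have h1 := exp_one_lower (2 * l * η + c)
  have h2 : (2 * l * η + c : ℂ).re = 2 * l * η + c.re := by simp
  rw [h2] at h1
  have h4 := Real.add_one_lt_exp hc.ne'
  have h5 : (1:ℝ) ≤ Real.exp (2 * l * η) := Real.one_le_exp (by positivity)
  rw [norm_div, norm_one, Real.exp_neg, one_div, one_div, ← mul_inv]
  apply inv_anti₀
  · have : 0 < Real.exp c.re - 1 := by linarith
    positivity
  · rw [Real.exp_add] at h1
    nlinarith

/-- the numerator of `sg (η - r)` -/
noncomputable def Nf (η : ℝ) (r : ℂ) : ℂ := 1 - Complex.sinh r ^ 2 *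
  ∑' l : ℕ, 2 * Complex.cosh (2 * (l + 1) * η) /
    (Complex.sinh (2 * (l + 1) * η - r) * Complex.sinh (2 * (l + 1) * η + r))

/-- the other factor -/
noncomputable def Yf (η : ℝ) (r : ℂ) : ℂ := 1 / (1 + Complex.cosh r) +
  ∑' l : ℕ, 2 / (Complex.cosh (2 * (l + 1) * η) + Complex.cosh r)

theorem sinh_mul_id (u s : ℂ) : Complex.sinh u ^ 2 - Complex.sinh s ^ 2 =
    Complex.sinh (u - s) * Complex.sinh (u + s) := by
  rw [Complex.sinh_sub, Complex.sinh_add]
  have e4 := Complex.cosh_sq s
  have e5 := Complex.cosh_sq u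
  linear_combination (-Complex.sinh u ^ 2) * e4 + (Complex.sinh s ^ 2) * e5

theorem sinh_sub_id (u s : ℂ) : Complex.sinh (u + s) - Complex.sinh (u - s) =
    2 * Complex.sinh s * Complex.cosh u := by
  rw [Complex.sinh_sub, Complex.sinh_add]
  ring

theorem term1 {η : ℝ} (hη : 0 < η) {r : ℂ} (h0 : 0 < r.re) (h1 : r.re < η) (l : ℕ) :
    Complex.sinh (η - r) * ((Cl η l : ℂ) / ((Sl η l : ℂ) - Complex.sinh (η - r) ^ 2)) =
      1 / 2 * (1 / Complex.sinh (2 * l * η + r) - 1 / Complex.sinh (2 * l * η + (2 * η - r))) := by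
  have hA : Complex.sinh (2 * l * η + r) ≠ 0 := sinh_ne (by
    have : (2 * l * η + r : ℂ).re = 2 * l * η + r.re := by simp
    rw [this]
    positivity)
  have hB : Complex.sinh (2 * l * η + (2 * η - r)) ≠ 0 := sinh_ne (by
    have : (2 * l * η + (2 * η - r) : ℂ).re = 2 * l * η + (2 * η - r.re) := by simp
    rw [this]
    have : 0 < 2 * η - r.re := by linarith
    positivity)
  have e2 : (2 * l * η + r : ℂ) = (2 * l + 1) * η - (η - r) := by ring
  have e3 : (2 * l * η + (2 * η - r) : ℂ) = (2 * l + 1) * η + (η - r) := by ring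
  have e1 : (Sl η l : ℂ) - Complex.sinh (η - r) ^ 2 =
      Complex.sinh (2 * l * η + r) * Complex.sinh (2 * l * η + (2 * η - r)) := by
    rw [e2, e3, ← sinh_mul_id]
    unfold Sl
    push_cast
    rfl
  have e6 : (Cl η l : ℂ) = Complex.cosh ((2 * l + 1) * η) := by
    unfold Cl
    push_cast
    ring
  have e7 : Complex.sinh (2 * l * η + (2 * η - r)) - Complex.sinh (2 * l * η + r) =
      2 * Complex.sinh (η - r) * Complex.cosh ((2 * l + 1) * η) := by
    rw [e2, e3, sinh_sub_id]
  rw [e1, e6, div_sub_div _ _ hA hB, one_mul, mul_one, e7]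
  field_simp

theorem sg_eq {η : ℝ} (hη : 0 < η) {r : ℂ} (h0 : 0 < r.re) (h1 : r.re < η) :
    sg η (η - r) = Nf η r / (2 * Complex.sinh r) := by
  have hr : Complex.sinh r ≠ 0 := sinh_ne h0
  have hc2 : 0 < (2 * η - r : ℂ).re := by
    have : (2 * η - r : ℂ).re = 2 * η - r.re := by simp
    rw [this]
    linarith
  have s1 := summable_sinh hη h0
  have s2 := summable_sinh hη hc2
  unfold sg Hf
  rw [← tsum_mul_left, tsum_congr fun l => term1 hη h0 h1 l, tsum_mul_left,
    Summable.tsum_sub s1 s2, Summable.tsum_eq_zero_add s1]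
  have e1 : ∀ l : ℕ, 1 / Complex.sinh (2 * ((l + 1 : ℕ) : ℂ) * η + r) =
      1 / Complex.sinh (2 * (l + 1) * η + r) := by
    intro l
    push_cast
    rfl
  have e2 : ∀ l : ℕ, 1 / Complex.sinh (2 * l * η + (2 * η - r)) =
      1 / Complex.sinh (2 * (l + 1) * η - r) := by
    intro l
    congr 2
    ring
  have s1' : Summable fun l : ℕ => 1 / Complex.sinh (2 * (l + 1) * η + r) := by
    have := (summable_nat_add_iff 1).2 s1
    exact this.congr e1
  have s2' : Summable fun l : ℕ => 1 / Complex.sinh (2 * (l + 1) * η - r) := s2.congr e2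
  rw [tsum_congr e1, tsum_congr e2, add_sub_assoc, ← Summable.tsum_sub s1' s2']
  have e3 : ∀ l : ℕ, 1 / Complex.sinh (2 * (l + 1) * η + r) -
      1 / Complex.sinh (2 * (l + 1) * η - r) = -Complex.sinh r * (2 * Complex.cosh (2 * (l + 1) * η) /
    (Complex.sinh (2 * (l + 1) * η - r) * Complex.sinh (2 * (l + 1) * η + r))) := by
    intro l
    have hA : Complex.sinh (2 * (l + 1) * η + r) ≠ 0 := sinh_ne (by
      have : (2 * (l + 1) * η + r : ℂ).re = 2 * (l + 1) * η + r.re := by simp
      rw [this]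
      positivity)
    have hB : Complex.sinh (2 * (l + 1) * η - r) ≠ 0 := sinh_ne (by
      have : (2 * (l + 1) * η - r : ℂ).re = 2 * (l + 1) * η - r.re := by simp
      rw [this]
      nlinarith [mul_nonneg (Nat.cast_nonneg (α := ℝ) l) hη.le])
    have e7 : Complex.sinh (2 * (l + 1) * η - r) - Complex.sinh (2 * (l + 1) * η + r) =
        -(2 * Complex.sinh r * Complex.cosh (2 * (l + 1) * η)) := by
      rw [Complex.sinh_sub, Complex.sinh_add]
      ring
    rw [div_sub_div _ _ hA hB, one_mul, mul_one, e7]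
    field_simp
  rw [tsum_congr e3, tsum_mul_left]
  unfold Nf
  generalize (∑' l : ℕ, 2 * Complex.cosh (2 * (l + 1) * η) /
    (Complex.sinh (2 * (l + 1) * η - r) * Complex.sinh (2 * (l + 1) * η + r))) = T
  simp only [Nat.cast_zero, mul_zero, zero_mul, zero_add]
  field_simp
  ring

end Pool.Agent.Q251.SL
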