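import Pool.Agent.Q251.SL.K6B1

/-! Project SL2 (helper167), job SL-K6B, part 2: the second lattice sum. -/

set_option autoImplicit false

open MeasureTheory Filter Topology

namespace Pool.Agent.Q251.SL

open Pool.Agent.Q167.SL

theorem frac_id (a b : ℂ) (ha : a ≠ 0) (hb : b ≠ 0) (ha1 : a ^ 2 - 1 ≠ 0) (ha2 : a ^ 2 + 1 ≠ 0)
    (hb1 : b ^ 2 - 1 ≠ 0) (hb2 : b ^ 2 + 1 ≠ 0) :
    ((b / a - a / b) / 2) * (((a * b + 1 / (a * b)) / 2 - (b / a + a / b) / 2) /
      (((a ^ 2 - 1 / a ^ 2) / 2) * ((b ^ 2 - 1 / b ^ 2) / 2))) =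
      1 / (a ^ 2 + 1) - 1 / (b ^ 2 + 1) := by
  have e1 : a ^ 2 - 1 / a ^ 2 = (a ^ 2 - 1) * (a ^ 2 + 1) / a ^ 2 := by
    field_simp
    ring
  have e2 : b ^ 2 - 1 / b ^ 2 = (b ^ 2 - 1) * (b ^ 2 + 1) / b ^ 2 := by
    field_simp
    ring
  rw [e1, e2]
  field_simp
  ring

theorem frac_id2 (X R : ℂ) (hX : X ≠ 0) (hR : R ≠ 0) (h1 : X * R + 1 ≠ 0) (h2 : X / R + 1 ≠ 0) :
    1 / (X * R + 1) - 1 / (X / R + 1) =
      -((R - 1 / R) / 2) * (1 / ((X + 1 / X) / 2 + (R + 1 / R) / 2)) := by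
  have h3 : X + R ≠ 0 := by
    intro h
    apply h2
    rw [eq_neg_of_add_eq_zero_left h]
    field_simp
    ring
  have e1 : (X + 1 / X) / 2 + (R + 1 / R) / 2 = (X * R + 1) * (X + R) / (2 * X * R) := by
    field_simp
    ring
  have e2 : X / R + 1 = (X + R) / R := by
    field_simp
  rw [e1, e2]
  field_simp
  ring

theorem frac_id3 (R : ℂ) (hR : R ≠ 0) (h1 : R + 1 ≠ 0) :
    1 / (R + 1) = 1 / 2 - 1 / 2 * ((R - 1 / R) / 2) * (1 / (1 + (R + 1 / R) / 2)) := by
  have e1 : 1 + (R + 1 / R) / 2 = (R + 1) ^ 2 / (2 * R) := by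
    field_simp
    ring
  rw [e1]
  field_simp
  ring

theorem sinh_exp (z : ℂ) : Complex.sinh z = (Complex.exp z - 1 / Complex.exp z) / 2 := by
  rw [one_div, ← Complex.exp_neg]
  rfl

theorem cosh_exp (z : ℂ) : Complex.cosh z = (Complex.exp z + 1 / Complex.exp z) / 2 := by
  rw [one_div, ← Complex.exp_neg]
  rfl

theorem exp_sq (z : ℂ) : Complex.exp z ^ 2 = Complex.exp (2 * z) := by
  rw [← Complex.exp_nat_mul]
  norm_num

theorem exp_ne_one {z : ℂ} (hz : 0 < z.re) : Complex.exp z - 1 ≠ 0 := by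
  intro h
  have h1 : ‖Complex.exp z‖ = 1 := by
    rw [sub_eq_zero.1 h, norm_one]
  rw [Complex.norm_exp, Real.exp_eq_one_iff] at h1
  linarith

theorem term2 {p q : ℂ} (hp : 0 < p.re) (hq : 0 < q.re) :
    Complex.sinh (q - p) * ((Complex.cosh (p + q) - Complex.cosh (q - p)) /
      (Complex.sinh (2 * p) * Complex.sinh (2 * q))) =
      1 / (Complex.exp (2 * p) + 1) - 1 / (Complex.exp (2 * q) + 1) := by
  have h2p : 0 < (2 * p).re := by simpa using hp
  have h2q : 0 < (2 * q).re := by simpa using hq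
  have h := frac_id (Complex.exp p) (Complex.exp q) (Complex.exp_ne_zero _)
    (Complex.exp_ne_zero _) (by rw [exp_sq]; exact exp_ne_one h2p)
    (by rw [exp_sq]; exact exp_one_ne h2p) (by rw [exp_sq]; exact exp_ne_one h2q)
    (by rw [exp_sq]; exact exp_one_ne h2q)
  rw [sinh_exp (q - p), cosh_exp (p + q), cosh_exp (q - p), sinh_exp (2 * p), sinh_exp (2 * q),
    Complex.exp_sub, Complex.exp_add, ← exp_sq, ← exp_sq, one_div_div]
  exact h

theorem sl_ne {η : ℝ} (hη : 0 < η) {r : ℂ} (h0 : 0 < r.re) (h1 : r.re < η) (l : ℕ) :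
    (Sl η l : ℂ) - Complex.sinh (η - r) ^ 2 ≠ 0 ∧
    (Sl η l : ℂ) - Complex.sinh (η - r) ^ 2 =
      Complex.sinh (2 * l * η + r) * Complex.sinh (2 * l * η + (2 * η - r)) := by
  have hA : Complex.sinh (2 * l * η + r) ≠ 0 := sinh_ne (by
    have : (2 * l * η + r : ℂ).re = 2 * l * η + r.re := by simp
    rw [this]
    positivity)
  have hB : Complex.sinh (2 * l * η + (2 * η - r)) ≠ 0 := sinh_ne (by
    have : (2 * l * η + (2 * η - r) : ℂ).re = 2 * l * η + (2 * η - r.re) := by simp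
    rw [this]
    have : 0 < 2 * η - r.re := by linarith
    positivity)
  have e2 : (2 * l * η + r : ℂ) = (2 * l + 1) * η - (η - r) := by ring
  have e3 : (2 * l * η + (2 * η - r) : ℂ) = (2 * l + 1) * η + (η - r) := by ring
  have e1 : (Sl η l : ℂ) - Complex.sinh (η - r) ^ 2 =
      Complex.sinh (2 * l * η + r) * Complex.sinh (2 * l * η + (2 * η - r)) := by
    rw [e2, e3, ← sinh_mul_id]
    unfold Sl
    push_cast
    rfl
  refine ⟨?_, e1⟩
  rw [e1]
  exact mul_ne_zero hA hB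

theorem term3 {η : ℝ} (hη : 0 < η) {r : ℂ} (h0 : 0 < r.re) (h1 : r.re < η) (l : ℕ) :
    Complex.sinh (η - r) * ((Cl η l : ℂ) / ((Sl η l : ℂ) - Complex.sinh (η - r) ^ 2)) -
      Complex.sinh (η - r) * Complex.cosh (η - r) *
        (1 / ((Sl η l : ℂ) - Complex.sinh (η - r) ^ 2)) =
      1 / (Complex.exp (2 * l * η + r) + 1) - 1 / (Complex.exp (2 * l * η + (2 * η - r)) + 1) := by
  have hp : 0 < ((2 * l * η + r) / 2 : ℂ).re := by
    have : ((2 * l * η + r) / 2 : ℂ) = (l * η : ℝ) + r / 2 := by push_cast; ring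
    rw [this]
    simp
    positivity
  have hq : 0 < ((2 * l * η + (2 * η - r)) / 2 : ℂ).re := by
    have : ((2 * l * η + (2 * η - r)) / 2 : ℂ) = (l * η + η : ℝ) - r / 2 := by push_cast; ring
    rw [this]
    simp
    have := mul_nonneg (Nat.cast_nonneg (α := ℝ) l) hη.le
    linarith
  have h := term2 hp hq
  have e1 : (2 * l * η + (2 * η - r)) / 2 - (2 * l * η + r) / 2 = (η - r : ℂ) := by ring
  have e2 : (2 * l * η + r) / 2 + (2 * l * η + (2 * η - r)) / 2 = ((2 * l + 1) * η : ℂ) := by ring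
  have e3 : 2 * ((2 * l * η + r) / 2) = (2 * l * η + r : ℂ) := by ring
  have e4 : 2 * ((2 * l * η + (2 * η - r)) / 2) = (2 * l * η + (2 * η - r) : ℂ) := by ring
  rw [e1, e2, e3, e4] at h
  rw [← h, (sl_ne hη h0 h1 l).2]
  have e6 : (Cl η l : ℂ) = Complex.cosh ((2 * l + 1) * η) := by
    unfold Cl
    push_cast
    ring
  rw [e6]
  ring

theorem hf_summable {η : ℝ} (hη : 0 < η) {r : ℂ} (h0 : 0 < r.re) (h1 : r.re < η) :
    Summable (fun l : ℕ => (Cl η l : ℂ) / ((Sl η l : ℂ) - Complex.sinh (η - r) ^ 2)) ∧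
    Summable (fun l : ℕ => 1 / ((Sl η l : ℂ) - Complex.sinh (η - r) ^ 2)) := by
  have hs : Complex.sinh (η - r) ≠ 0 := sinh_ne (by
    have : (η - r : ℂ).re = η - r.re := by simp
    rw [this]
    linarith)
  have hc2 : 0 < (2 * η - r : ℂ).re := by
    have : (2 * η - r : ℂ).re = 2 * η - r.re := by simp
    rw [this]
    linarith
  have s1 := summable_sinh hη h0
  have s2 := summable_sinh hη hc2
  have s3 : Summable fun l : ℕ => Complex.sinh (η - r) *
      ((Cl η l : ℂ) / ((Sl η l : ℂ) - Complex.sinh (η - r) ^ 2)) := by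
    refine Summable.congr ((s1.sub s2).mul_left (1 / 2)) fun l => ?_
    exact (term1 hη h0 h1 l).symm
  have s4 : Summable (fun l : ℕ => (Cl η l : ℂ) / ((Sl η l : ℂ) - Complex.sinh (η - r) ^ 2)) := by
    refine Summable.congr (s3.mul_left (Complex.sinh (η - r))⁻¹) fun l => ?_
    field_simp
  refine ⟨s4, ?_⟩
  refine Summable.of_norm_bounded s4.norm fun l => ?_
  rw [norm_div, norm_div, norm_one]
  have h2 : 1 ≤ ‖(Cl η l : ℂ)‖ := by
    rw [Complex.norm_real]
    exact (Real.one_le_cosh _).trans (le_abs_self _)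
  gcongr

theorem sgtt_eq {η : ℝ} (hη : 0 < η) {r : ℂ} (h0 : 0 < r.re) (h1 : r.re < η)
    (hsg : sg η (η - r) ≠ 0) :
    sg η (η - r) - sg η (η - r) * tt η (η - r) - 1 / 2 =
      -(1 / 2) * Complex.sinh r * Yf η r := by
  have hH : Hf η (Complex.sinh (η - r) ^ 2) ≠ 0 := by
    intro h
    apply hsg
    unfold sg
    rw [h, mul_zero]
  have e1 : sg η (η - r) * tt η (η - r) = Complex.sinh (η - r) * Complex.cosh (η - r) *
      Gf η (Complex.sinh (η - r) ^ 2) := by
    unfold sg tt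
    field_simp
  rw [e1]
  have hc2 : 0 < (2 * η - r : ℂ).re := by
    have : (2 * η - r : ℂ).re = 2 * η - r.re := by simp
    rw [this]
    linarith
  obtain ⟨t1, t2⟩ := hf_summable hη h0 h1
  have s1 := summable_exp hη h0
  have s2 := summable_exp hη hc2
  unfold sg Hf Gf
  rw [← tsum_mul_left, ← tsum_mul_left,
    ← Summable.tsum_sub (t1.mul_left _) (t2.mul_left _), tsum_congr fun l => term3 hη h0 h1 l,
    Summable.tsum_sub s1 s2, Summable.tsum_eq_zero_add s1]
  have e1 : ∀ l : ℕ, 1 / (Complex.exp (2 * ((l + 1 : ℕ) : ℂ) * η + r) + 1) =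
      1 / (Complex.exp (2 * (l + 1) * η + r) + 1) := by
    intro l
    push_cast
    rfl
  have e2 : ∀ l : ℕ, 1 / (Complex.exp (2 * l * η + (2 * η - r)) + 1) =
      1 / (Complex.exp (2 * (l + 1) * η - r) + 1) := by
    intro l
    congr 3
    ring
  have s1' : Summable fun l : ℕ => 1 / (Complex.exp (2 * (l + 1) * η + r) + 1) := by
    have := (summable_nat_add_iff 1).2 s1
    exact this.congr e1
  have s2' : Summable fun l : ℕ => 1 / (Complex.exp (2 * (l + 1) * η - r) + 1) := s2.congr e2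
  rw [tsum_congr e1, tsum_congr e2, add_sub_assoc, ← Summable.tsum_sub s1' s2']
  have e3 : ∀ l : ℕ, 1 / (Complex.exp (2 * (l + 1) * η + r) + 1) -
      1 / (Complex.exp (2 * (l + 1) * η - r) + 1) =
        (-Complex.sinh r / 2) * (2 / (Complex.cosh (2 * (l + 1) * η) + Complex.cosh r)) := by
    intro l
    have hA : Complex.exp (2 * (l + 1) * η + r) + 1 ≠ 0 := exp_one_ne (by
      have : (2 * (l + 1) * η + r : ℂ).re = 2 * (l + 1) * η + r.re := by simp
      rw [this]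
      positivity)
    have hB : Complex.exp (2 * (l + 1) * η - r) + 1 ≠ 0 := exp_one_ne (by
      have : (2 * (l + 1) * η - r : ℂ).re = 2 * (l + 1) * η - r.re := by simp
      rw [this]
      nlinarith [mul_nonneg (Nat.cast_nonneg (α := ℝ) l) hη.le])
    rw [Complex.exp_add] at hA
    rw [Complex.exp_sub] at hB
    have h := frac_id2 _ _ (Complex.exp_ne_zero _) (Complex.exp_ne_zero _) hA hB
    rw [Complex.exp_add, Complex.exp_sub, h, sinh_exp r, cosh_exp r, cosh_exp (2 * (l + 1) * η)]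
    ring
  rw [tsum_congr e3, tsum_mul_left]
  unfold Yf
  generalize (∑' l : ℕ, 2 / (Complex.cosh (2 * (l + 1) * η) + Complex.cosh r)) = T
  simp only [Nat.cast_zero, mul_zero, zero_mul, zero_add]
  rw [frac_id3 _ (Complex.exp_ne_zero r) (exp_one_ne h0), ← sinh_exp, ← cosh_exp]
  ring

end Pool.Agent.Q251.SL
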