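import Pool.Agent.Q251.SL.K6B2

/-! Project SL2 (helper167), job SL-K6B, part 3: analyticity of the factors. -/

set_option autoImplicit false

open MeasureTheory Filter Topology

namespace Pool.Agent.Q251.SL

open Pool.Agent.Q167.SL

/-- the open strip -/
def Vs (η : ℝ) : Set ℂ := {r | |r.re| < η}

theorem vs_open (η : ℝ) : IsOpen (Vs η) :=
  isOpen_lt (Complex.continuous_re.abs) continuous_const

theorem sinh_low2 {η : ℝ} (hη : 0 < η) (l : ℕ) {z : ℂ} (hz : (2 * l + 1) * η ≤ z.re) :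
    Real.sinh η * Real.exp (2 * l * η) ≤ ‖Complex.sinh z‖ := by
  refine le_trans ?_ (sinh_lower z)
  have h1 := real_sinh_add (a := η) (t := 2 * l * η) (by positivity)
  have h2 : Real.sinh (2 * l * η + η) ≤ Real.sinh z.re :=
    Real.sinh_le_sinh.2 (by linarith)
  linarith

theorem re1 (η : ℝ) (l : ℕ) (r : ℂ) : (2 * (l + 1) * η - r : ℂ).re = 2 * (l + 1) * η - r.re := by
  simp

theorem re2 (η : ℝ) (l : ℕ) (r : ℂ) : (2 * (l + 1) * η + r : ℂ).re = 2 * (l + 1) * η + r.re := by
  simp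

theorem re_bounds {η : ℝ} (l : ℕ) {r : ℂ} (hr : r ∈ Vs η) :
    (2 * l + 1) * η ≤ (2 * (l + 1) * η - r : ℂ).re ∧
      (2 * l + 1) * η ≤ (2 * (l + 1) * η + r : ℂ).re := by
  have h := abs_lt.1 (show |r.re| < η from hr)
  rw [re1, re2]
  constructor <;> linarith [h.1, h.2]

theorem sinh_ne' {η : ℝ} (hη : 0 < η) (l : ℕ) {r : ℂ} (hr : r ∈ Vs η) :
    Complex.sinh (2 * (l + 1) * η - r) ≠ 0 ∧ Complex.sinh (2 * (l + 1) * η + r) ≠ 0 := by
  obtain ⟨h1, h2⟩ := re_bounds l hr
  have h3 : 0 < (2 * l + 1) * η := by positivity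
  exact ⟨sinh_ne (by linarith), sinh_ne (by linarith)⟩

theorem nf_diff {η : ℝ} (hη : 0 < η) : DifferentiableOn ℂ (Nf η) (Vs η) := by
  unfold Nf
  refine DifferentiableOn.sub (differentiableOn_const _) (DifferentiableOn.mul (by fun_prop) ?_)
  have hse : 0 < Real.sinh η := Real.sinh_pos_iff.2 hη
  refine Complex.differentiableOn_tsum_of_summable_norm
    (geo_summable hη (2 * Real.exp (2 * η) / Real.sinh η ^ 2)) (fun l => ?_) (vs_open η)
    (fun l r hr => ?_)
  · refine DifferentiableOn.div (differentiableOn_const _) (by fun_prop) fun r hr => ?_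
    obtain ⟨h1, h2⟩ := sinh_ne' hη l hr
    exact mul_ne_zero h1 h2
  · obtain ⟨h1, h2⟩ := re_bounds l hr
    have h3 := sinh_low2 hη l h1
    have h4 := sinh_low2 hη l h2
    have h5 : ‖(2 : ℂ) * Complex.cosh (2 * (l + 1) * η)‖ ≤ 2 * Real.exp (2 * (l + 1) * η) := by
      have e1 : (2 : ℂ) * Complex.cosh (2 * (l + 1) * η) =
          ((2 * Real.cosh (2 * (l + 1) * η) : ℝ) : ℂ) := by push_cast; ring
      rw [e1, Complex.norm_real, Real.norm_eq_abs,
        abs_of_nonneg (mul_nonneg zero_le_two (Real.cosh_pos _).le), Real.cosh_eq]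
      have h6 : Real.exp (-(2 * (l + 1) * η)) ≤ Real.exp (2 * (l + 1) * η) :=
        Real.exp_le_exp.2 (by
          have : 0 ≤ 2 * ((l : ℝ) + 1) * η := by positivity
          linarith)
      linarith
    rw [norm_div, norm_mul (Complex.sinh (2 * (l + 1) * η - r))]
    have h7 : (Real.sinh η * Real.exp (2 * l * η)) * (Real.sinh η * Real.exp (2 * l * η)) ≤
        ‖Complex.sinh (2 * (l + 1) * η - r)‖ * ‖Complex.sinh (2 * (l + 1) * η + r)‖ :=
      mul_le_mul h3 h4 (by positivity) (norm_nonneg _)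
    have h8 : 0 < (Real.sinh η * Real.exp (2 * l * η)) * (Real.sinh η * Real.exp (2 * l * η)) := by
      positivity
    calc ‖(2 : ℂ) * Complex.cosh (2 * (l + 1) * η)‖ /
        (‖Complex.sinh (2 * (l + 1) * η - r)‖ * ‖Complex.sinh (2 * (l + 1) * η + r)‖)
        ≤ 2 * Real.exp (2 * (l + 1) * η) /
          ((Real.sinh η * Real.exp (2 * l * η)) * (Real.sinh η * Real.exp (2 * l * η))) := by
          gcongr
      _ = 2 * Real.exp (2 * η) / Real.sinh η ^ 2 * Real.exp (-(2 * l * η)) := by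
          have e1 : Real.exp (2 * (l + 1) * η) = Real.exp (2 * l * η) * Real.exp (2 * η) := by
            rw [← Real.exp_add]
            congr 1
            ring
          rw [e1, Real.exp_neg]
          field_simp

theorem nf_even (η : ℝ) (r : ℂ) : Nf η (-r) = Nf η r := by
  unfold Nf
  rw [Complex.sinh_neg, neg_sq]
  congr 2
  refine tsum_congr fun l => ?_
  rw [sub_neg_eq_add, ← sub_eq_add_neg, mul_comm (Complex.sinh (2 * (l + 1) * η + r))]

theorem conj2 : (starRingEnd ℂ) 2 = 2 := Complex.conj_ofNat 2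

theorem nf_conj (η : ℝ) (r : ℂ) : Nf η ((starRingEnd ℂ) r) = (starRingEnd ℂ) (Nf η r) := by
  unfold Nf
  rw [map_sub, map_one, map_mul, map_pow, Complex.sinh_conj, Complex.conj_tsum]
  congr 2
  refine tsum_congr fun l => ?_
  rw [map_div₀, map_mul, map_mul, ← Complex.sinh_conj, ← Complex.sinh_conj, ← Complex.cosh_conj]
  simp [map_sub, map_add, map_mul, Complex.conj_ofReal, conj2]

theorem yf_even (η : ℝ) (r : ℂ) : Yf η (-r) = Yf η r := by
  unfold Yf
  rw [Complex.cosh_neg]

theorem yf_conj (η : ℝ) (r : ℂ) : Yf η ((starRingEnd ℂ) r) = (starRingEnd ℂ) (Yf η r) := by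
  unfold Yf
  rw [map_add, map_div₀, map_one, map_add, map_one, Complex.cosh_conj, Complex.conj_tsum]
  congr 1
  refine tsum_congr fun l => ?_
  rw [map_div₀, map_add, ← Complex.cosh_conj, ← Complex.cosh_conj]
  simp [map_add, map_mul, Complex.conj_ofReal, conj2]

/-- the compact rectangle -/
def Kr (η : ℝ) : Set ℂ := (Set.Icc 0 (η / 2)) ×ℂ (Set.Icc (-(Real.pi / 2)) (Real.pi / 2))

theorem kr_compact (η : ℝ) : IsCompact (Kr η) := isCompact_Icc.reProdIm isCompact_Icc

theorem kr_mem {η : ℝ} {r : ℂ} : r ∈ Kr η ↔ (0 ≤ r.re ∧ r.re ≤ η / 2) ∧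
    (-(Real.pi / 2) ≤ r.im ∧ r.im ≤ Real.pi / 2) := Iff.rfl

theorem kr_sub {η : ℝ} (hη : 0 < η) : Kr η ⊆ Vs η := by
  intro r hr
  obtain ⟨⟨h1, h2⟩, -⟩ := kr_mem.1 hr
  show |r.re| < η
  rw [abs_lt]
  constructor <;> linarith

theorem cosh_re_nonneg {r : ℂ} (h1 : -(Real.pi / 2) ≤ r.im) (h2 : r.im ≤ Real.pi / 2) :
    0 ≤ (Complex.cosh r).re := by
  have e1 : (Complex.cosh r).re = Real.cosh r.re * Real.cos r.im := by
    conv_lhs => rw [← Complex.re_add_im r]
    rw [Complex.cosh_add, Complex.cosh_mul_I, Complex.sinh_mul_I]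
    rw [← Complex.ofReal_cosh, ← Complex.ofReal_cos, ← Complex.ofReal_sinh, ← Complex.ofReal_sin,
      ← Complex.ofReal_mul, Complex.add_re, Complex.ofReal_re]
    simp only [Complex.mul_re, Complex.mul_im, Complex.ofReal_re, Complex.ofReal_im, Complex.I_re,
      Complex.I_im]
    ring
  rw [e1]
  exact mul_nonneg (Real.cosh_pos _).le (Real.cos_nonneg_of_neg_pi_div_two_le_of_le h1 h2)

theorem cosh_den {c : ℝ} {r : ℂ} (h1 : -(Real.pi / 2) ≤ r.im)
    (h2 : r.im ≤ Real.pi / 2) : c ≤ ‖(c : ℂ) + Complex.cosh r‖ := by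
  have h3 := cosh_re_nonneg h1 h2
  have h4 := Complex.re_le_norm ((c : ℂ) + Complex.cosh r)
  rw [Complex.add_re, Complex.ofReal_re] at h4
  linarith

theorem yf_cont {η : ℝ} (hη : 0 < η) : ContinuousOn (Yf η) (Kr η) := by
  unfold Yf
  refine ContinuousOn.add ?_ ?_
  · refine ContinuousOn.div continuousOn_const (by fun_prop) fun r hr => ?_
    obtain ⟨-, h1, h2⟩ := kr_mem.1 hr
    intro h
    have h3 := cosh_den (c := 1) h1 h2
    rw [Complex.ofReal_one, h, norm_zero] at h3
    linarith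
  · have e0 : ∀ l : ℕ, Complex.cosh (2 * (l + 1) * η) = ((Real.cosh (2 * (l + 1) * η) : ℝ) : ℂ) := by
      intro l
      push_cast
      ring
    refine continuousOn_tsum (u := fun l : ℕ => 4 * Real.exp (-(2 * l * η))) (fun l => ?_)
      (geo_summable hη 4) (fun l r hr => ?_)
    · refine ContinuousOn.div continuousOn_const (by fun_prop) fun r hr => ?_
      obtain ⟨-, h1, h2⟩ := kr_mem.1 hr
      intro h
      have h3 := cosh_den (c := Real.cosh (2 * (l + 1) * η)) h1 h2
      rw [← e0, h, norm_zero] at h3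
      have := Real.cosh_pos (2 * (l + 1) * η)
      linarith
    · obtain ⟨-, h1, h2⟩ := kr_mem.1 hr
      have h3 := cosh_den (c := Real.cosh (2 * (l + 1) * η)) h1 h2
      rw [← e0] at h3
      have h4 : Real.exp (2 * l * η) / 2 ≤ Real.cosh (2 * (l + 1) * η) := by
        rw [Real.cosh_eq]
        have h5 : Real.exp (2 * l * η) ≤ Real.exp (2 * (l + 1) * η) :=
          Real.exp_le_exp.2 (by nlinarith)
        have h6 := Real.exp_pos (-(2 * (l + 1) * η))
        linarith
      rw [norm_div]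
      have h7 : ‖(2:ℂ)‖ = 2 := by simp
      rw [h7]
      calc 2 / ‖Complex.cosh (2 * (l + 1) * η) + Complex.cosh r‖
          ≤ 2 / (Real.exp (2 * l * η) / 2) := by
            have h8 : 0 < Real.exp (2 * l * η) / 2 := by positivity
            exact div_le_div_of_nonneg_left (by norm_num) h8 (h4.trans h3)
        _ = 4 * Real.exp (-(2 * l * η)) := by
            rw [Real.exp_neg]
            field_simp
            norm_num

end Pool.Agent.Q251.SL
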